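import Pool.Agent.Helper78.JT.Goals2

/-!
# JT-TLJ: the size of the parameters
-/

namespace Pool.Agent.Helper3.JT

open Pool.Agent.Helper78.JT

theorem tlj : TljStmt := by
  intro a e
  have hb : 0 < bb a e := by
    unfold bb
    positivity
  have hlo : ∀ L, 1 ≤ L → 2 ^ (bb a e * tj a e L) ≤ L := by
    intro L hL
    have hL0 : L ≠ 0 := by omega
    unfold tj
    calc 2 ^ (bb a e * (Nat.log 2 L / bb a e)) ≤ 2 ^ Nat.log 2 L :=
          Nat.pow_le_pow_right (by norm_num) (Nat.mul_div_le _ _)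
      _ ≤ L := Nat.pow_log_le_self 2 hL0
  have hhi : ∀ L, L < 2 ^ (bb a e * (tj a e L + 1)) := by
    intro L
    unfold tj
    calc L < 2 ^ (Nat.log 2 L + 1) := Nat.lt_pow_succ_log_self (by norm_num) L
      _ ≤ 2 ^ (bb a e * (Nat.log 2 L / bb a e + 1)) :=
          Nat.pow_le_pow_right (by norm_num) (Nat.lt_mul_div_succ (Nat.log 2 L) hb)
  have hU : ∀ L, 1 ≤ L → Uj a e L ^ (e + 2) ≤ L := by
    intro L hL
    refine le_trans (le_of_eq ?_) (hlo L hL)
    unfold Uj bb
    rw [← pow_mul]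
    congr 1
    ring
  refine ⟨fun L hL => ⟨hlo L hL, hhi L, hU L hL, fun r hr => ⟨?_, ?_⟩⟩, ?_, ?_⟩
  · have h1 : r ^ (e + 1) ≤ L ^ (e + 1) := hr.trans (Nat.pow_le_pow_right hL (Nat.le_succ e))
    exact (Nat.pow_le_pow_iff_left (Nat.succ_ne_zero e)).1 h1
  · have h1 : r ^ (e + 1) ≤ (2 ^ ((tj a e L + 1) * (e * (e + 2) * (a + 5)))) ^ (e + 1) := by
      calc r ^ (e + 1) ≤ L ^ e := hr
        _ ≤ (2 ^ (bb a e * (tj a e L + 1))) ^ e := Nat.pow_le_pow_left (hhi L).le e
        _ = (2 ^ ((tj a e L + 1) * (e * (e + 2) * (a + 5)))) ^ (e + 1) := by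
            rw [← pow_mul, ← pow_mul]
            congr 1
            unfold bb
            ring
    have h2 : r ≤ 2 ^ ((tj a e L + 1) * (e * (e + 2) * (a + 5))) :=
      (Nat.pow_le_pow_iff_left (Nat.succ_ne_zero e)).1 h1
    have h3 : tj a e L * sj a e L ≤ 2 ^ (tj a e L * (a + 2)) := by
      calc tj a e L * sj a e L ≤ 2 ^ tj a e L * sj a e L :=
            Nat.mul_le_mul_right _ Nat.lt_two_pow_self.le
        _ = 2 ^ (tj a e L * (a + 2)) := by
            unfold sj
            rw [← pow_add]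
            congr 1
            ring
    calc r * (tj a e L * sj a e L)
        ≤ 2 ^ ((tj a e L + 1) * (e * (e + 2) * (a + 5))) * 2 ^ (tj a e L * (a + 2)) :=
          Nat.mul_le_mul h2 h3
      _ = Dj a e L := by
          unfold Dj
          rw [← pow_add, Nat.add_comm]
  · intro M
    refine ⟨2 ^ (bb a e * M), fun L hL => ?_⟩
    unfold tj
    rw [Nat.le_div_iff_mul_le hb, Nat.mul_comm]
    have hL0 : L ≠ 0 := by
      have : 0 < 2 ^ (bb a e * M) := by positivity
      omega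
    exact Nat.le_log_of_pow_le (by norm_num) hL
  · refine ⟨2 ^ (bb a e * (e * (e + 2) * (a + 5))), fun L hL => ?_⟩
    have hL1 : 1 ≤ L := le_trans (Nat.one_le_two_pow) hL
    have ht : e * (e + 2) * (a + 5) ≤ tj a e L := by
      unfold tj
      rw [Nat.le_div_iff_mul_le hb, Nat.mul_comm]
      exact Nat.le_log_of_pow_le (by norm_num) hL
    have hmain : Dj a e L * 2 ^ (2 * tj a e L) ≤ Uj a e L ^ (e + 1) := by
      unfold Dj Uj
      rw [← pow_mul, ← pow_add]
      apply Nat.pow_le_pow_right (by norm_num)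
      calc tj a e L * (a + 2) + (tj a e L + 1) * (e * (e + 2) * (a + 5)) + 2 * tj a e L
          = tj a e L * (a + 4) + tj a e L * (e * (e + 2) * (a + 5)) + e * (e + 2) * (a + 5) := by
            ring
        _ ≤ tj a e L * (a + 4) + tj a e L * (e * (e + 2) * (a + 5)) + tj a e L :=
            Nat.add_le_add_left ht _
        _ = (e + 1) * (a + 5) * tj a e L * (e + 1) := by ring
    refine ⟨hmain, ?_⟩
    have hU1 : 1 ≤ Uj a e L := by
      unfold Uj
      exact Nat.one_le_two_pow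
    calc Dj a e L ≤ Dj a e L * 2 ^ (2 * tj a e L) := Nat.le_mul_of_pos_right _ (by positivity)
      _ ≤ Uj a e L ^ (e + 1) := hmain
      _ ≤ Uj a e L ^ (e + 2) := Nat.pow_le_pow_right hU1 (by omega)
      _ ≤ L := hU L hL1

end Pool.Agent.Helper3.JT
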